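import Pool.Agent.Q184.FT.FTK

/-!
# The block over the conjugates of `B` under a group `K` of automorphisms

The proof of `ftk` is the proof of `t_FTK` in `Pool.Agent.Q184.FT.FTK` for the orbit of `B` under a group
`K` of automorphisms.
-/

set_option autoImplicit false
set_option linter.unusedSectionVars false

open scoped Classical

noncomputable section

namespace Pool.Agent.Q17.FN

open Pool.Agent.H254R3.IN hiding NN
open Pool.Agent.Q17.WR
open Pool.Agent.Q17.AM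
open Pool.Agent.Q17.RB
open Pool.Agent.Q17.DC (S_FMT)
open Pool.Agent.Q66.RB
open Pool.Agent.Q184.FT

section count

variable {H A : Type} [Group H] [Fintype H] [CommGroup A] [Fintype A]

/-- The families fixed by a group `K` of automorphisms which permutes the sets `γ ω` transitively
correspond to their members at `1`, fixed by the stabiliser. -/
lemma count (hI : S_FXI) (γ X : A → Set (H → ℂ)) (hirr : ∀ ω, ∀ χ ∈ γ ω, IsIrr χ)
    (hd : ∀ ω ω', ω ≠ ω' → Disjoint (γ ω) (γ ω')) (hX : ∀ ω, X ω ⊆ γ ω)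
    (K : Subgroup (ℂ ≃+* ℂ)) (as : K →* A)
    (hX2 : ∀ s : K, ∀ ω, ∀ χ ∈ X ω, (fun g => (s : ℂ ≃+* ℂ) (χ g)) ∈ X (as s * ω))
    (hsurj : Function.Surjective as) :
    (FxS (FX X) (K : Set (ℂ ≃+* ℂ))).ncard =
      (FxS (X 1) {s | ∃ h : s ∈ K, as ⟨s, h⟩ = 1}).ncard := by
  have hinj := (hI H A γ hirr hd).2
  choose t hta using hsurj
  have key : ∀ χ ∈ FxS (X 1) {s | ∃ h : s ∈ K, as ⟨s, h⟩ = 1}, ∀ s : K, ∀ ω,
      (fun g => (s : ℂ ≃+* ℂ) ((t ω : ℂ ≃+* ℂ) (χ g))) =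
        fun g => (t (as s * ω) : ℂ ≃+* ℂ) (χ g) := by
    intro χ hχ s ω
    have hr : (((t (as s * ω))⁻¹ * (s * t ω) : K) : ℂ ≃+* ℂ) ∈
        {s | ∃ h : s ∈ K, as ⟨s, h⟩ = 1} := by
      refine ⟨((t (as s * ω))⁻¹ * (s * t ω)).2, ?_⟩
      change as ((t (as s * ω))⁻¹ * (s * t ω)) = 1
      rw [map_mul, map_mul, map_inv, hta, hta, inv_mul_cancel]
    funext g
    have h2 := hχ.2 _ hr g
    have h3 : (t (as s * ω) : ℂ ≃+* ℂ) (((((t (as s * ω))⁻¹ * (s * t ω) : K)) : ℂ ≃+* ℂ) (χ g)) =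
        (s : ℂ ≃+* ℂ) ((t ω : ℂ ≃+* ℂ) (χ g)) := by
      change (t (as s * ω) : ℂ ≃+* ℂ) ((t (as s * ω) : ℂ ≃+* ℂ).symm
        ((s : ℂ ≃+* ℂ) ((t ω : ℂ ≃+* ℂ) (χ g)))) = _
      exact RingEquiv.apply_symm_apply _ _
    rw [h2] at h3
    exact h3.symm
  have himg : FxS (FX X) (K : Set (ℂ ≃+* ℂ)) =
      (fun χ : H → ℂ => nca fun ω g => (t ω : ℂ ≃+* ℂ) (χ g)) ''
        (FxS (X 1) {s | ∃ h : s ∈ K, as ⟨s, h⟩ = 1}) := by
    ext θ
    constructor
    · rintro ⟨⟨f, hf, rfl⟩, h2⟩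
      have hfs : ∀ s : K, ∀ ω, (fun g => (s : ℂ ≃+* ℂ) (f ω g)) = f (as s * ω) := by
        intro s ω
        have h3 : nca (fun ω g => (s : ℂ ≃+* ℂ) (f ((as s)⁻¹ * ω) g)) = nca f := by
          have h4 := nca_s (s : ℂ ≃+* ℂ) f
          have h5 : (fun x => (s : ℂ ≃+* ℂ) (nca f x)) = nca f := funext fun x => h2 s s.2 x
          rw [h5] at h4
          rw [h4, nca_shift (fun ω g => (s : ℂ ≃+* ℂ) (f ω g))]
        have h6 := hinj _ f (fun ω => ?_) (fun ω => hX ω (hf ω)) h3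
        · have h7 := congrFun h6 (as s * ω)
          rw [inv_mul_cancel_left] at h7
          exact h7
        · have h8 := hX2 s ((as s)⁻¹ * ω) _ (hf _)
          rw [mul_inv_cancel_left] at h8
          exact hX _ h8
      refine ⟨f 1, ⟨hf 1, ?_⟩, ?_⟩
      · rintro s ⟨hs, hs1⟩ g
        have h3 := congrFun (hfs ⟨s, hs⟩ 1) g
        rw [hs1, one_mul] at h3
        exact h3
      · change nca (fun ω g => (t ω : ℂ ≃+* ℂ) (f 1 g)) = nca f
        congr 1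
        funext ω
        rw [hfs (t ω) 1, hta, mul_one]
    · rintro ⟨χ, hχ, rfl⟩
      refine ⟨⟨_, fun ω => ?_, rfl⟩, fun s hs x => ?_⟩
      · have h3 := hX2 (t ω) 1 χ hχ.1
        rw [hta, mul_one] at h3
        exact h3
      · have h3 := congrFun (nca_s s (fun ω g => (t ω : ℂ ≃+* ℂ) (χ g))) x
        have h4 : (fun (ω : A) (g : H) => s ((t ω : ℂ ≃+* ℂ) (χ g))) =
            fun ω g => (t (as ⟨s, hs⟩ * ω) : ℂ ≃+* ℂ) (χ g) :=
          funext fun ω => key χ hχ ⟨s, hs⟩ ω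
        rw [h4, nca_shift (fun ω g => (t ω : ℂ ≃+* ℂ) (χ g))] at h3
        exact h3
  rw [himg]
  refine Set.InjOn.ncard_image ?_
  intro χ hχ χ' hχ' h
  have hmem : ∀ χ ∈ FxS (X 1) {s | ∃ h : s ∈ K, as ⟨s, h⟩ = 1}, ∀ ω,
      (fun g => (t ω : ℂ ≃+* ℂ) (χ g)) ∈ γ ω := by
    intro χ hχ ω
    have h3 := hX2 (t ω) 1 χ hχ.1
    rw [hta, mul_one] at h3
    exact hX _ h3
  have h3 := congrFun (hinj _ _ (hmem χ hχ) (hmem χ' hχ') h) 1
  funext g
  exact (t 1 : ℂ ≃+* ℂ).injective (congrFun h3 g)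

end count

section stable

variable {A H : Type} [Group A] [Fintype A] [Group H]

lemma FX_st (γ : A → Set (H → ℂ)) (K : Subgroup (ℂ ≃+* ℂ)) (as : K →* A)
    (hs : ∀ s : K, ∀ ω, ∀ χ ∈ γ ω, (fun g => (s : ℂ ≃+* ℂ) (χ g)) ∈ γ (as s * ω)) :
    ∀ s ∈ K, St s (FX γ) := by
  have key : ∀ s : K, ∀ χ ∈ FX γ, (fun x => (s : ℂ ≃+* ℂ) (χ x)) ∈ FX γ := by
    rintro s χ ⟨f, hf, rfl⟩
    refine ⟨fun ω g => (s : ℂ ≃+* ℂ) (f ((as s)⁻¹ * ω) g), fun ω => ?_, ?_⟩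
    · have h1 := hs s ((as s)⁻¹ * ω) _ (hf _)
      rwa [mul_inv_cancel_left] at h1
    · rw [nca_s, nca_shift (fun ω g => (s : ℂ ≃+* ℂ) (f ω g))]
  intro s hs' χ
  constructor
  · exact key ⟨s, hs'⟩ χ
  · intro h
    have h1 := key (⟨s, hs'⟩⁻¹ : K) _ h
    have h2 : (fun x => (((⟨s, hs'⟩⁻¹ : K)) : ℂ ≃+* ℂ) (s (χ x))) = χ :=
      funext fun x => s.symm_apply_apply (χ x)
    rwa [h2] at h1

end stable

/-- the action of the automorphisms on the `n`-th roots of unity -/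
def act (n : ℕ) [NeZero n] (K : Subgroup (ℂ ≃+* ℂ)) : K →* (ZMod n)ˣ where
  toFun s := (exists_unit (n := n) (s : ℂ ≃+* ℂ)).choose
  map_one' := unit_unique fun ζ hζ => by
    rw [← (exists_unit (n := n) ((1 : K) : ℂ ≃+* ℂ)).choose_spec ζ hζ, Units.val_one,
      ZMod.val_one_eq_one_mod]
    change ζ = _
    conv_lhs => rw [← pow_one ζ, ← Nat.mod_add_div 1 n, pow_add, pow_mul ζ n, hζ, one_pow,
      mul_one]
  map_mul' s t := unit_mul (exists_unit (n := n) (s : ℂ ≃+* ℂ)).choose_spec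
    (exists_unit (n := n) (t : ℂ ≃+* ℂ)).choose_spec
    (exists_unit (n := n) ((s * t : K) : ℂ ≃+* ℂ)).choose_spec

lemma act_spec {n : ℕ} [NeZero n] {K : Subgroup (ℂ ≃+* ℂ)} (s : K) (ζ : ℂ) (hζ : ζ ^ n = 1) :
    (s : ℂ ≃+* ℂ) ζ = ζ ^ ((act n K s : (ZMod n)ˣ) : ZMod n).val :=
  (exists_unit (n := n) (s : ℂ ≃+* ℂ)).choose_spec ζ hζ

/-- the block over the conjugates of `B` under `K` -/
theorem ftk (hI : S_FXI) (hFB : S_FXB) (hTR : S_TRA) (hFC : S_FXC) (hG : S_GCB) (hT : S_HT)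
    (hFM : S_FMT) (G : Type) [Group G] [Fintype G] (p : ℕ) [Fact p.Prime]
    (O : ValuationSubring ℂ) (hp : (p : ℂ) ∈ O.nonunits) (B : Set (G → ℂ)) (D : Subgroup G)
    (b : Set (NN D → ℂ)) (hdt : Dt p O B D b) (K : Subgroup (ℂ ≃+* ℂ)) :
    ∃ (A : Type) (_ : CommGroup A) (_ : Fintype A)
      (β : A → Set (G → ℂ)) (b' : Set (NN (Da A D) → ℂ)),
      Nat.card A ∣ Nat.totient (Nat.card G) ∧ β 1 = B ∧ Dt p O (FX β) (Da A D) b' ∧ (∀ s ∈ K, St s (FX β)) ∧ (∀ s ∈ K, St s b') ∧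
      (FxS (Irr0 p (Da A D) (FX β)) (K : Set (ℂ ≃+* ℂ))).ncard =
        (FxS (Irr0 p D B) {s | s ∈ K ∧ St s B}).ncard ∧
      (FxS (Irr0 p ((Da A D).subgroupOf (NN (Da A D))) b') (K : Set (ℂ ≃+* ℂ))).ncard =
        (FxS (Irr0 p (D.subgroupOf (NN D)) b) {s | s ∈ K ∧ St s B}).ncard := by
  obtain ⟨hB, hD, hb⟩ := hdt
  have : Fintype (Pool.Agent.Q17.AM.NN D) := Fintype.ofFinite _
  have hn0 : NeZero (Nat.card G) := ⟨Nat.card_pos.ne'⟩
  have hnG : ∀ g : G, g ^ Nat.card G = 1 := fun g => pow_card_eq_one'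
  have hnN : ∀ g : Pool.Agent.Q17.AM.NN D, g ^ Nat.card G = 1 := fun g =>
    Subtype.ext (by rw [Subgroup.coe_pow, hnG]; rfl)
  have hcN : Nat.card (Pool.Agent.Q17.AM.NN D) ∣ Nat.card G := Subgroup.card_subgroup_dvd_card _
  have hcop : ∀ u : (ZMod (Nat.card G))ˣ,
      Nat.Coprime (u : ZMod (Nat.card G)).val (Nat.card G) := ZMod.val_coe_unit_coprime
  have hcopN : ∀ u : (ZMod (Nat.card G))ˣ,
      Nat.Coprime (u : ZMod (Nat.card G)).val (Nat.card (Pool.Agent.Q17.AM.NN D)) := fun u =>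
    Nat.Coprime.coprime_dvd_right hcN (hcop u)
  have hDp : IsPGroup p D := defect_pgroup hD
  obtain ⟨U, hU⟩ : ∃ U : Subgroup (ZMod (Nat.card G))ˣ, U = (act (Nat.card G) K).range := ⟨_, rfl⟩
  obtain ⟨A, iA, fA, π, hπs, hπk, hcA⟩ : ∃ (A : Type) (_ : CommGroup A) (_ : Fintype A)
      (π : U →* A), Function.Surjective π ∧
        (∀ u, π u = 1 ↔ (u : (ZMod (Nat.card G))ˣ) ∈ stb (Nat.card G) hnG B) ∧
        Nat.card A ∣ Nat.totient (Nat.card G) :=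
    ⟨U ⧸ (stb (Nat.card G) hnG B).subgroupOf U, inferInstance, Fintype.ofFinite _,
      QuotientGroup.mk' _, QuotientGroup.mk'_surjective _, fun u => QuotientGroup.eq_one_iff u,
      ((Subgroup.card_quotient_dvd_card _).trans (Subgroup.card_subgroup_dvd_card U)).trans
        (by rw [Nat.card_eq_fintype_card, ZMod.card_units_eq_totient])⟩
  let k : A → ℕ := fun a => (((Function.surjInv hπs a : U) : (ZMod (Nat.card G))ˣ) :
    ZMod (Nat.card G)).val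
  let β : A → Set (G → ℂ) := fun a => gc (k a) B
  let c : A → Set (Pool.Agent.Q17.AM.NN D → ℂ) := fun a => gc (k a) b
  have hk : ∀ a, Nat.Coprime (k a) (Nat.card G) := fun a => hcop _
  have hkN : ∀ a, Nat.Coprime (k a) (Nat.card (Pool.Agent.Q17.AM.NN D)) := fun a => hcopN _
  have hβu : ∀ u : U, β (π u) = gu (u : (ZMod (Nat.card G))ˣ) B := by
    intro u
    have h1 : π (Function.surjInv hπs (π u)) = π u := Function.surjInv_eq hπs (π u)
    have h2 : (((Function.surjInv hπs (π u))⁻¹ * u : U) : (ZMod (Nat.card G))ˣ) ∈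
        stb (Nat.card G) hnG B := by
      rw [← hπk, map_mul, map_inv, h1, inv_mul_cancel]
    rw [Subgroup.coe_mul, Subgroup.coe_inv] at h2
    change gu ((Function.surjInv hπs (π u) : U) : (ZMod (Nat.card G))ˣ) B = gu _ B
    conv_lhs => rw [← (show gu (((Function.surjInv hπs (π u) : U) : (ZMod (Nat.card G))ˣ)⁻¹ *
      (u : (ZMod (Nat.card G))ˣ)) B = B from h2)]
    rw [← gu_mul hnG, mul_inv_cancel_left]
  have hGB := fun u : (ZMod (Nat.card G))ˣ =>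
    (hG G p O hp (u : ZMod (Nat.card G)).val (hcop u)).2 B hB
  have hβB : ∀ a, IsBlock O (β a) := fun a => (hGB _).1
  have hβD : ∀ a, IsDefectGroup p O (β a) D := fun a => ((hGB _).2.1 D hD).1
  have hβb : ∀ a, IsBrauerCorrespondent p O D (β a) (c a) := fun a =>
    ((hGB _).2.1 D hD).2 b hb
  have hcu : ∀ u : U, c (π u) = gu (u : (ZMod (Nat.card G))ˣ) b := by
    intro u
    refine (hFM G p O hp D hDp (β (π u)) (hβB _)).2.2 _ _ (hβb _) ?_
    rw [hβu]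
    exact ((hGB u).2.1 D hD).2 b hb
  have hβinj : Function.Injective β := by
    intro a a' h
    obtain ⟨u, rfl⟩ := hπs a
    obtain ⟨v, rfl⟩ := hπs a'
    rw [hβu, hβu] at h
    have h1 : gu ((v : (ZMod (Nat.card G))ˣ)⁻¹ * (u : (ZMod (Nat.card G))ˣ)) B = B := by
      rw [gu_mul hnG, h, ← gu_mul hnG, inv_mul_cancel, gu_one hnG]
    have h2 := (hπk (v⁻¹ * u)).mpr h1
    rw [map_mul, map_inv, inv_mul_eq_one] at h2
    exact h2.symm
  obtain ⟨hF1, hF2, -⟩ := hFB G A p O hp β hβB hβinj D hβD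
  obtain ⟨e, he1, he2⟩ := hTR G A D
  obtain ⟨hcinj, hcor⟩ := hFC G A p O hp β hβB hβinj D hβD c hβb e he1 he2
  have hcB : ∀ a, IsBlock O (c a) := fun a => (hβb a).1
  have hcD : ∀ a, IsDefectGroup p O (c a) (D.subgroupOf (Pool.Agent.Q17.AM.NN D)) :=
    fun a => (hβb a).2.1
  -- the element of `A` of an automorphism
  obtain ⟨as, has, hass⟩ : ∃ as : K →* A, (∀ s : K, ∃ u : U, (u : (ZMod (Nat.card G))ˣ) =
      act (Nat.card G) K s ∧ as s = π u) ∧ Function.Surjective as := by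
    subst hU
    exact ⟨π.comp (act (Nat.card G) K).rangeRestrict,
      fun s => ⟨(act (Nat.card G) K).rangeRestrict s, rfl, rfl⟩,
      hπs.comp (act (Nat.card G) K).rangeRestrict_surjective⟩
  have hsβ : ∀ s : K, ∀ ω, ∀ χ ∈ β ω, (fun g => (s : ℂ ≃+* ℂ) (χ g)) ∈ β (as s * ω) := by
    intro s ω χ hχ
    obtain ⟨v, rfl⟩ := hπs ω
    obtain ⟨u, hu, hu'⟩ := has s
    rw [hu', ← map_mul, hβu, Subgroup.coe_mul, gu_mul hnG, ← hβu v, hu]
    refine ⟨χ, hχ, funext fun g => ?_⟩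
    exact ((hG G p O hp (act (Nat.card G) K s : ZMod (Nat.card G)).val
      (hcop _)).2 (β (π v)) (hβB (π v))).2.2 s (act_spec s) χ hχ g
  have hsc : ∀ s : K, ∀ ω, ∀ χ ∈ c ω, (fun g => (s : ℂ ≃+* ℂ) (χ g)) ∈ c (as s * ω) := by
    intro s ω χ hχ
    obtain ⟨v, rfl⟩ := hπs ω
    obtain ⟨u, hu, hu'⟩ := has s
    rw [hu', ← map_mul, hcu, Subgroup.coe_mul, gu_mul hnN, ← hcu v, hu]
    refine ⟨χ, hχ, funext fun g => ?_⟩
    refine ((hG (Pool.Agent.Q17.AM.NN D) p O hp (act (Nat.card G) K s : ZMod (Nat.card G)).val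
      (hcopN _)).2 (c (π v)) (hcB (π v))).2.2 s (fun ζ hζ => act_spec s ζ ?_) χ hχ g
    obtain ⟨m, hm⟩ := hcN
    rw [hm, pow_mul, hζ, one_pow]
  have hβ1 : β 1 = B := by
    have h1 := hβu 1
    rw [map_one, Subgroup.coe_one, gu_one hnG] at h1
    exact h1
  have hc1 : c 1 = b := by
    have h1 := hcu 1
    rw [map_one, Subgroup.coe_one, gu_one hnN] at h1
    exact h1
  have hdβ : ∀ ω ω', ω ≠ ω' → Disjoint (β ω) (β ω') := fun ω ω' h =>
    block_disj (hβB ω) (hβB ω') fun h' => h (hβinj h')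
  have hdc : ∀ ω ω', ω ≠ ω' → Disjoint (c ω) (c ω') := fun ω ω' h =>
    block_disj (hcB ω) (hcB ω') fun h' => h (hcinj h')
  have hSt : ∀ s : K, as s = 1 ↔ St (s : ℂ ≃+* ℂ) B := by
    intro s
    constructor
    · intro h χ
      rw [← hβ1]
      constructor
      · intro hχ
        have h2 := hsβ s 1 χ hχ
        rwa [h, mul_one] at h2
      · intro hχ
        have h2 := hsβ s⁻¹ 1 _ hχ
        rw [map_inv, h, inv_one, mul_one] at h2
        have h3 : (fun g => ((s⁻¹ : K) : ℂ ≃+* ℂ) ((s : ℂ ≃+* ℂ) (χ g))) = χ :=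
          funext fun g => (s : ℂ ≃+* ℂ).symm_apply_apply (χ g)
        rwa [h3] at h2
    · intro h
      obtain ⟨χ, hχ⟩ := hB.nonempty
      by_contra hne
      have h2 := (h χ).mp hχ
      rw [← hβ1] at h2 hχ
      have h3 := hsβ s 1 χ hχ
      rw [mul_one] at h3
      exact Set.disjoint_left.mp (hdβ _ _ hne) h3 h2
  have hset : {s : ℂ ≃+* ℂ | ∃ h : s ∈ K, as ⟨s, h⟩ = 1} = {s | s ∈ K ∧ St s B} := by
    ext s
    constructor
    · rintro ⟨h1, h2⟩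
      exact ⟨h1, (hSt ⟨s, h1⟩).mp h2⟩
    · rintro ⟨h1, h2⟩
      exact ⟨h1, (hSt ⟨s, h1⟩).mpr h2⟩
  have cnt : ∀ (H : Type) [Group H] [Fintype H] (γ : A → Set (H → ℂ)) (D' : Subgroup H),
      (∀ ω, IsBlock O (γ ω)) → (∀ ω ω', ω ≠ ω' → Disjoint (γ ω) (γ ω')) →
      (∀ ω, IsDefectGroup p O (γ ω) D') →
      (∀ s : K, ∀ ω, ∀ χ ∈ γ ω, (fun g => (s : ℂ ≃+* ℂ) (χ g)) ∈ γ (as s * ω)) →
      (FxS (Irr0 p (Da A D') (FX γ)) (K : Set (ℂ ≃+* ℂ))).ncard =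
        (FxS (Irr0 p D' (γ 1)) {s | s ∈ K ∧ St s B}).ncard := by
    intro H _ _ γ D' hγ hd hD' hs
    rw [Irr0_FX hI hT hp γ hγ hd D' hD', ← hset]
    refine count hI γ (fun ω => Irr0 p D' (γ ω)) (fun ω => (hγ ω).irr) hd
      (fun ω χ h => h.1) K as ?_ hass
    rintro s ω χ ⟨h1, m, h2, h3⟩
    refine ⟨hs s ω χ h1, m, ?_, h3⟩
    change (m : ℂ) = (s : ℂ ≃+* ℂ) (χ 1)
    rw [← h2, map_natCast]
  refine ⟨A, iA, fA, β, {θ | (fun x => θ (e x)) ∈ FX c}, hcA, hβ1, ⟨hF1, hF2, hcor⟩,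
    FX_st β K as hsβ, ?_, ?_, ?_⟩
  · intro s hs θ
    exact FX_st c K as hsc s hs (fun x => θ (e x))
  · have h1 := cnt G β D hβB hdβ hβD hsβ
    rw [hβ1] at h1
    exact h1
  · have h1 := cnt (Pool.Agent.Q17.AM.NN D) c (D.subgroupOf (Pool.Agent.Q17.AM.NN D)) hcB hdc
      hcD hsc
    rw [hc1] at h1
    rw [← h1]
    have hidx : (Da A (D.subgroupOf (Pool.Agent.Q17.AM.NN D))).index =
        ((Da A D).subgroupOf (Pool.Agent.Q17.AM.NN (Da A D))).index := by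
      rw [← Subgroup.index_comap_of_surjective
        ((Da A D).subgroupOf (Pool.Agent.Q17.AM.NN (Da A D))) (f := e.toMonoidHom) e.surjective]
      congr 1
      ext z
      rw [Subgroup.mem_comap, Subgroup.mem_subgroupOf]
      change (z.right = 1 ∧ ∀ ω, z.left ω ∈ D.subgroupOf (Pool.Agent.Q17.AM.NN D)) ↔
        ((e z : Wr G A A).right = 1 ∧ ∀ ω, (e z : Wr G A A).left ω ∈ D)
      rw [he1]
      refine and_congr_right fun _ => forall_congr' fun ω => ?_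
      rw [he2, Subgroup.mem_subgroupOf]
    have hinjE : Function.Injective (fun (θ : Pool.Agent.Q17.AM.NN (Da A D) → ℂ) =>
        fun x => θ (e x)) := by
      intro θ θ' h
      funext y
      obtain ⟨x, rfl⟩ := e.surjective y
      exact congrFun h x
    rw [← Set.ncard_image_of_injective _ hinjE]
    congr 1
    ext χ
    constructor
    · rintro ⟨θ, ⟨⟨h1, m, h2, h3⟩, h4⟩, rfl⟩
      refine ⟨⟨h1, m, ?_, ?_⟩, fun s hs g => h4 s hs (e g)⟩
      · rw [h2]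
        exact congrArg θ (map_one e).symm
      · rw [h3, hidx]
    · rintro ⟨⟨h1, m, h2, h3⟩, h4⟩
      refine ⟨fun y => χ (e.symm y), ⟨⟨?_, m, ?_, ?_⟩, fun s hs g => h4 s hs (e.symm g)⟩, ?_⟩
      · change (fun x => χ (e.symm (e x))) ∈ FX c
        simp only [MulEquiv.symm_apply_apply]
        exact h1
      · rw [h2]
        exact congrArg χ (map_one e.symm).symm
      · rw [h3, hidx]
      · funext x
        exact congrArg χ (e.symm_apply_apply x)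

end Pool.Agent.Q17.FN
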