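import Pool.Agent.Q17.FN.Nav

/-!
# Blocks with larger stabilisers, with a bound for the order of the group
-/

set_option autoImplicit false

open scoped Classical

noncomputable section

namespace Pool.Agent.Q17.FN

open Pool.Agent.H254R3.IN hiding NN
open Pool.Agent.Y63.KR Pool.Agent.Q17.WR Pool.Agent.Q17.DC Pool.Agent.Q17.AM Pool.Agent.Q17.OS
open Pool.Agent.Q17.DM Pool.Agent.Q17.RB Pool.Agent.Q111.OS Pool.Agent.Q66.RB
open Pool.Agent.Q17.RR
open Pool.Agent.Q17.FT (exists_lin fix_mul)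
open Pool.Agent.Q38.FT (block_single defect_single St_TB)

/-- the data for one step, with a bound for the prime -/
lemma exists_step' {G : Type} [Group G] [Fintype G] {B : Set (G → ℂ)} {K : Subgroup (ℂ ≃+* ℂ)}
    (hst : (Stb B).FiniteIndex) (hn : (Stb B).Normal)
    (hK : ¬ K ≤ Stb B) : ∃ (q : ℕ) (_ : Fact q.Prime) (s : ℂ ≃+* ℂ), s ∈ K ∧ s ^ q ∈ Stb B ∧
      (∀ n : ℕ, s ^ n ∈ Stb B → q ∣ n) ∧ q ∣ (Stb B).relIndex K := by
  have hfin : Finite (K ⧸ (Stb B).subgroupOf K) := by
    have : ((Stb B).subgroupOf K).FiniteIndex := inferInstance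
    exact Subgroup.finite_quotient_of_finiteIndex
  have hcard : Nat.card (K ⧸ (Stb B).subgroupOf K) ≠ 1 := by
    intro h1
    refine hK fun t ht => ?_
    have h2 := (Nat.card_eq_one_iff_unique.mp h1).1
    have h3 : (QuotientGroup.mk (⟨t, ht⟩ : K) : K ⧸ (Stb B).subgroupOf K) =
        QuotientGroup.mk (1 : K) := Subsingleton.elim _ _
    rw [QuotientGroup.eq, mul_one] at h3
    have h4 : (t : ℂ ≃+* ℂ)⁻¹ ∈ Stb B := h3
    exact (Stb B).inv_mem_iff.mp h4
  obtain ⟨q, hq, hqd⟩ := Nat.exists_prime_and_dvd hcard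
  have hqF : Fact q.Prime := ⟨hq⟩
  obtain ⟨x, hx⟩ := exists_prime_orderOf_dvd_card' q hqd
  obtain ⟨⟨s, hs⟩, rfl⟩ := QuotientGroup.mk_surjective x
  have key : ∀ n : ℕ, (QuotientGroup.mk (⟨s, hs⟩ : K) : K ⧸ (Stb B).subgroupOf K) ^ n = 1 ↔
      s ^ n ∈ Stb B := by
    intro n
    rw [← QuotientGroup.mk_pow, QuotientGroup.eq_one_iff]
    rfl
  refine ⟨q, hqF, s, hs, ?_, fun n hn' => ?_, hqd⟩
  · rw [← key, ← hx]
    exact pow_orderOf_eq_one _
  · rw [← hx]
    exact orderOf_dvd_of_pow_eq_one ((key n).mpr hn')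

lemma card_wc {G : Type} [Group G] [Finite G] {q : ℕ} [Fact q.Prime] :
    Nat.card (Wc G q) = Nat.card G ^ q * q := by
  have hN : NeZero q := ⟨(Fact.out : q.Prime).ne_zero⟩
  rw [Nat.card_congr SemidirectProduct.equivProd, Nat.card_prod, Nat.card_fun,
    Nat.card_congr (Multiplicative.toAdd : Cy q ≃ ZMod q), Nat.card_zmod]

/-- the block `B` of `G` may be replaced by a block stable under `K`, of a group of bounded order -/
theorem ladderB (hW : S_WPK) (hS : S_STF) {p : ℕ} [hp : Fact p.Prime] {O : ValuationSubring ℂ}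
    (hO : (p : ℂ) ∈ O.nonunits) {C : ∀ (G : Type) [Group G], Subgroup G → Prop} (hC : ClR p C)
    (i : ℕ) : ∀ g : ℕ, 0 < g → ∃ N : ℕ, 0 < N ∧ g ∣ N ∧ ∀ (K : Subgroup (ℂ ≃+* ℂ)) (G : Type)
    [Group G] [Fintype G] (B : Set (G → ℂ)) (D : Subgroup G), Nat.card G = g → IsBlock O B →
    IsDefectGroup p O B D → D ≠ ⊥ → C G D → (Stb B).relIndex K ≤ i →
    ∃ (G' : Type) (_ : Group G') (_ : Fintype G') (B' : Set (G' → ℂ)) (D' : Subgroup G'),
      Nat.card G' ∣ N ∧ IsBlock O B' ∧ IsDefectGroup p O B' D' ∧ D' ≠ ⊥ ∧ C G' D' ∧ K ≤ Stb B' ∧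
      SK p O B' K = SK p O B {s | s ∈ K ∧ St s B} := by
  induction i with
  | zero =>
    intro g hg
    refine ⟨g, hg, dvd_rfl, ?_⟩
    intro K G _ _ B D hcG hB hD hne hc hi
    have h1 := stb_fin hO hB
    exact absurd (Nat.le_zero.mp hi) (rel_ne h1 K)
  | succ i ih =>
    intro g hg
    choose F hF0 hFd hF using ih
    let f : ℕ → ℕ := fun q => if h : 0 < g ^ q * q then F (g ^ q * q) h else 1
    have hf0 : ∀ q, 0 < f q := by
      intro q
      by_cases h : 0 < g ^ q * q
      · change 0 < (if h : 0 < g ^ q * q then F (g ^ q * q) h else 1)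
        rw [dif_pos h]
        exact hF0 _ h
      · change 0 < (if h : 0 < g ^ q * q then F (g ^ q * q) h else 1)
        rw [dif_neg h]
        exact one_pos
    refine ⟨g * ∏ q ∈ Finset.range (i + 2), f q,
      Nat.mul_pos hg (Finset.prod_pos fun q _ => hf0 q), Dvd.intro _ rfl, ?_⟩
    intro K G _ _ B D hcG hB hD hne hc hi
    by_cases hK : K ≤ Stb B
    · refine ⟨G, inferInstance, inferInstance, B, D, hcG ▸ Dvd.intro _ rfl, hB, hD, hne, hc, hK, ?_⟩
      congr 1
      ext t
      exact ⟨fun h => ⟨h, mem_stb'.mp (hK h)⟩, fun h => h.1⟩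
    · have hfin := stb_fin hO hB
      have hnor := stb_normal (B := B) hB.irr
      obtain ⟨q, hq, s, hs, hsq, hsn, hqi⟩ := exists_step' hfin hnor hK
      have hFm : Fam p q O D (bet q s B) :=
        ⟨fun ω => im_block hO hB _, fun ω => im_dg hO hB hD _, bet_inj hsq hsn⟩
      have hmv := mv_kb hB.irr hs hsq
      have hN : NeZero q := ⟨hq.out.ne_zero⟩
      have h1 := (hW p q G O hO D (bet q s B) hFm (Kb (K : Set (ℂ ≃+* ℂ)) s B)).2 hmv
      have hst := hS p q G O hO D (bet q s B) hFm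
      -- the stabiliser of the new block in `K`
      have h2 : ∀ t ∈ K, t ∈ Stb (FX (bet q s B)) ↔ t ∈ Kb (K : Set (ℂ ≃+* ℂ)) s B := by
        intro t ht
        rw [mem_stb', hst t]
        constructor
        · rintro ⟨b, hb⟩
          have h3 := im_of_mp (hb 1)
          rw [mul_one, bet_one] at h3
          exact ⟨ht, _, h3⟩
        · intro h3
          exact hmv.mv t h3
      obtain ⟨e1, e2, -⟩ := p_fxb G (Cy q) p O hO (bet q s B) hFm.blk hFm.inj D hFm.dfg
      have hfinW : Finite (Wc G q) := Finite.of_equiv _ SemidirectProduct.equivProd.symm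
      have : Fintype (Wc G q) := Fintype.ofFinite _
      have hfin2 := stb_fin hO e1
      have hle : Stb B ⊓ K ≤ Stb (FX (bet q s B)) ⊓ K := by
        rintro t ⟨ht1, ht2⟩
        refine ⟨(h2 t ht2).mpr ⟨ht2, 0, ?_⟩, ht2⟩
        rw [pow_zero, im_one]
        exact ht1
      have hlt : (Stb (FX (bet q s B))).relIndex K < (Stb B).relIndex K := by
        rw [← Subgroup.inf_relIndex_right (Stb (FX (bet q s B))) K,
          ← Subgroup.inf_relIndex_right (Stb B) K,
          ← Subgroup.relIndex_mul_relIndex _ _ _ hle inf_le_right]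
        have h4 : (Stb (FX (bet q s B)) ⊓ K).relIndex K ≠ 0 := by
          rw [Subgroup.inf_relIndex_right]
          exact rel_ne hfin2 K
        have h5 : 1 < (Stb B ⊓ K).relIndex (Stb (FX (bet q s B)) ⊓ K) := by
          have h6 : (Stb B ⊓ K).relIndex (Stb (FX (bet q s B)) ⊓ K) ≠ 1 := by
            rw [Ne, Subgroup.relIndex_eq_one]
            intro h7
            have h8 : s ∈ Stb B ⊓ K := h7 ⟨(h2 s hs).mpr ⟨hs, 1, by rw [pow_one]⟩, hs⟩
            have h9 := hsn 1 (by rw [pow_one]; exact h8.1)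
            exact hq.out.one_lt.ne' (Nat.dvd_one.mp h9)
          have h7 : (Stb B ⊓ K).relIndex (Stb (FX (bet q s B)) ⊓ K) ≠ 0 := by
            intro h8
            have h9 : (Stb B).relIndex K ≠ 0 := rel_ne hfin K
            rw [← Subgroup.inf_relIndex_right (Stb B) K,
              ← Subgroup.relIndex_mul_relIndex _ _ _ hle inf_le_right, h8, zero_mul] at h9
            exact h9 rfl
          omega
        exact lt_mul_of_one_lt_left (Nat.pos_of_ne_zero h4) h5
      have hcW : Nat.card (Wc G q) = g ^ q * q := by rw [card_wc, hcG]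
      have hpos : 0 < g ^ q * q := Nat.mul_pos (pow_pos hg _) hq.out.pos
      have hfq : f q = F (g ^ q * q) hpos := dif_pos hpos
      have hqr : q ∈ Finset.range (i + 2) := by
        rw [Finset.mem_range]
        have h3 := Nat.le_of_dvd (Nat.pos_of_ne_zero (rel_ne hfin K)) hqi
        omega
      obtain ⟨G', i1, i2, B', D', f0, f1, f2, f3, f4, f5, f6⟩ := hF (g ^ q * q) hpos K (Wc G q)
        (FX (bet q s B)) (Da (Cy q) D) hcW e1 e2 (da_ne_bot hne) (hC.wr G D q hc) (by omega)
      refine ⟨G', i1, i2, B', D', ?_, f1, f2, f3, f4, f5, ?_⟩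
      · refine (f0.trans ?_).trans (Dvd.intro_left _ rfl)
        rw [← hfq]
        exact Finset.dvd_prod_of_mem f hqr
      · rw [f6]
        have h3 : {t | t ∈ K ∧ St t (FX (bet q s B))} = Kb (K : Set (ℂ ≃+* ℂ)) s B := by
          ext t
          constructor
          · rintro ⟨ht, h4⟩
            exact (h2 t ht).mp (mem_stb'.mpr h4)
          · intro h4
            exact ⟨h4.1, mem_stb'.mp ((h2 t h4.1).mpr h4)⟩
        rw [h3, h1, bet_one]
        congr 1
        ext t
        constructor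
        · rintro ⟨h4, h5⟩
          exact ⟨h4.1, h5⟩
        · rintro ⟨h4, h5⟩
          exact ⟨⟨h4, 0, by rw [pow_zero, im_one]; exact st_iff.mp h5⟩, h5⟩

/-- a block which is stable under all automorphisms; the sums are replaced by powers -/
theorem ladderG (hW : S_WPK) (hS : S_STF) (hG : S_GCK) {p : ℕ} [hp : Fact p.Prime]
    {O : ValuationSubring ℂ} (hO : (p : ℂ) ∈ O.nonunits)
    {C : ∀ (G : Type) [Group G], Subgroup G → Prop} (hC : ClR p C) (N : ℕ) :
    ∀ (G : Type) [Group G] [Fintype G] (B : Set (G → ℂ))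
    (D : Subgroup G), IsBlock O B → IsDefectGroup p O B D → D ≠ ⊥ → C G D →
    (Stb B).index ≤ N →
    ∃ (G' : Type) (_ : Group G') (_ : Fintype G') (B' : Set (G' → ℂ)) (D' : Subgroup G') (n : ℕ),
      Nat.card G ∣ Nat.card G' ∧
      IsBlock O B' ∧ IsDefectGroup p O B' D' ∧ D' ≠ ⊥ ∧ C G' D' ∧ Gst B' ∧ 1 ≤ n ∧
      ∀ K : Set (ℂ ≃+* ℂ), (∀ s ∈ K, St s B) → SK p O B' K = SK p O B K ^ n := by
  induction N with
  | zero =>
    intro G _ _ B D hB hD hne hc hi
    have h1 := stb_fin hO hB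
    exact absurd (Nat.le_zero.mp hi) h1.index_ne_zero
  | succ N ih =>
    intro G _ _ B D hB hD hne hc hi
    by_cases hK : (⊤ : Subgroup (ℂ ≃+* ℂ)) ≤ Stb B
    · exact ⟨G, inferInstance, inferInstance, B, D, 1, dvd_rfl, hB, hD, hne, hc,
        fun s => mem_stb'.mp (hK (Subgroup.mem_top s)), le_refl _, fun K _ => by rw [pow_one]⟩
    · have hfin := stb_fin hO hB
      have hnor := stb_normal (B := B) hB.irr
      obtain ⟨q, hq, s, -, hsq, hsn⟩ := exists_step hfin hnor hK
      have hF : Fam p q O D (bet q s B) :=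
        ⟨fun ω => im_block hO hB _, fun ω => im_dg hO hB hD _, bet_inj hsq hsn⟩
      have hmv := mv_kb (K := ⊤) hB.irr (Subgroup.mem_top s) hsq
      have hN : NeZero q := ⟨hq.out.ne_zero⟩
      have hstω : ∀ t : ℂ ≃+* ℂ, St t B → ∀ ω, St t (bet q s B ω) := by
        intro t ht ω
        refine st_iff.mpr ?_
        change im t (im _ B) = im _ B
        rw [im_comm hB.irr, st_iff.mp ht]
      have h1 := fun (K : Set (ℂ ≃+* ℂ)) (hKs : ∀ t ∈ K, St t B) =>
        (hW p q G O hO D (bet q s B) hF K).1 fun t ht => hstω t (hKs t ht)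
      have hst := hS p q G O hO D (bet q s B) hF
      have h2 : ∀ t, t ∈ Stb (FX (bet q s B)) ↔
          t ∈ Kb (((⊤ : Subgroup (ℂ ≃+* ℂ))) : Set (ℂ ≃+* ℂ)) s B := by
        intro t
        rw [mem_stb', hst t]
        constructor
        · rintro ⟨b, hb⟩
          have h3 := im_of_mp (hb 1)
          rw [mul_one, bet_one] at h3
          exact ⟨Subgroup.mem_top t, _, h3⟩
        · intro h3
          exact hmv.mv t h3
      obtain ⟨e1, e2, -⟩ := p_fxb G (Cy q) p O hO (bet q s B) hF.blk hF.inj D hF.dfg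
      have hfinW : Finite (Wc G q) := Finite.of_equiv _ SemidirectProduct.equivProd.symm
      have : Fintype (Wc G q) := Fintype.ofFinite _
      have hfin2 := stb_fin hO e1
      have hle : Stb B ≤ Stb (FX (bet q s B)) := by
        intro t ht
        refine (h2 t).mpr ⟨Subgroup.mem_top t, 0, ?_⟩
        rw [pow_zero, im_one]
        exact ht
      have hlt : (Stb (FX (bet q s B))).index < (Stb B).index := by
        rw [← Subgroup.relIndex_mul_index hle]
        have h5 : 1 < (Stb B).relIndex (Stb (FX (bet q s B))) := by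
          have h6 : (Stb B).relIndex (Stb (FX (bet q s B))) ≠ 1 := by
            rw [Ne, Subgroup.relIndex_eq_one]
            intro h7
            have h8 : s ∈ Stb B := h7 ((h2 s).mpr ⟨Subgroup.mem_top s, 1, by rw [pow_one]⟩)
            have h9 := hsn 1 (by rw [pow_one]; exact h8)
            exact hq.out.one_lt.ne' (Nat.dvd_one.mp h9)
          have h7 := rel_ne hfin (Stb (FX (bet q s B)))
          omega
        exact lt_mul_of_one_lt_left (Nat.pos_of_ne_zero hfin2.index_ne_zero) h5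
      obtain ⟨G', i1, i2, B', D', n, f0, f1, f2, f3, f4, f5, f6, f7⟩ := ih (Wc G q)
        (FX (bet q s B)) (Da (Cy q) D) e1 e2 (da_ne_bot hne) (hC.wr G D q hc) (by omega)
      refine ⟨G', i1, i2, B', D', q * n, ?_, f1, f2, f3, f4, f5,
        Nat.mul_pos hq.out.pos f6, fun K hKs => ?_⟩
      · refine dvd_trans ?_ f0
        rw [card_wc]
        exact Dvd.dvd.mul_right (dvd_pow_self _ hq.out.ne_zero) _
      have h4 : ∀ ω : Cy q, SK p O (bet q s B ω) K = SK p O B K := fun ω => sk_im hG hO hB _ K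
      rw [f7 K fun t ht => mem_stb'.mp (hle (mem_stb'.mpr (hKs t ht))), h1 K hKs,
        Finset.prod_congr rfl (fun ω _ => h4 ω), Finset.prod_const, Finset.card_univ,
        ← pow_mul]
      congr 2
      rw [← Nat.card_eq_fintype_card,
        Nat.card_congr (Multiplicative.toAdd : Cy q ≃ ZMod q), Nat.card_zmod]

end Pool.Agent.Q17.FN
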