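import Pool.Agent.Q17.FN.Ftk
import Pool.Agent.Q17.FT.Fin

/-!
# Frobenius automorphisms and characters with values in the `p`-adic cyclotomic tower
-/

set_option autoImplicit false

open scoped Classical

noncomputable section

namespace Pool.Agent.Q17.FN

open Pool.Agent.H254R3.IN hiding NN
open Pool.Agent.Q17.WR Pool.Agent.Q17.AM Pool.Agent.Q17.RB
open Pool.Agent.Q17.DC
open Pool.Agent.Q92.FT (exists_aut_pow pow_eq_of_modEq)

/-- `s` fixes the `n`-th roots of unity of `p`-power order and maps the `n`-th roots of unity of order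
prime to `p` to their `p`-th powers -/
def Frob (p n : ℕ) (s : ℂ ≃+* ℂ) : Prop :=
  ∀ ζ : ℂ, ζ ^ n = 1 → ((∃ j : ℕ, ζ ^ (p ^ j) = 1) → s ζ = ζ) ∧
    ((∃ m : ℕ, ¬ p ∣ m ∧ ζ ^ m = 1) → s ζ = ζ ^ p)

variable {p : ℕ} [hp : Fact p.Prime]

lemma frob_mono {n N : ℕ} (h : n ∣ N) {s : ℂ ≃+* ℂ} (hs : Frob p N s) : Frob p n s := by
  intro ζ hζ
  obtain ⟨c, rfl⟩ := h
  exact hs ζ (by rw [pow_mul, hζ, one_pow])

/-- a root of unity of order dividing `a * b`, `a` and `b` coprime, is a product -/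
lemma root_split {a b : ℕ} (hab : Nat.Coprime a b) (h0 : 0 < a * b) {ζ : ℂ}
    (hζ : ζ ^ (a * b) = 1) : ∃ x y : ℂ, x ^ a = 1 ∧ y ^ b = 1 ∧ ζ = x * y := by
  obtain ⟨c, d, hcd⟩ := Nat.isCoprime_iff_coprime.mpr hab
  have hne : ζ ≠ 0 := by
    rintro rfl
    rw [zero_pow h0.ne'] at hζ
    exact zero_ne_one hζ
  refine ⟨(ζ ^ b) ^ d, (ζ ^ a) ^ c, ?_, ?_, ?_⟩
  · rw [← zpow_natCast ((ζ ^ b) ^ d) a, ← zpow_mul, mul_comm d (a : ℤ), zpow_mul, zpow_natCast,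
      ← pow_mul, mul_comm b a, hζ, one_zpow]
  · rw [← zpow_natCast ((ζ ^ a) ^ c) b, ← zpow_mul, mul_comm c (b : ℤ), zpow_mul, zpow_natCast,
      ← pow_mul, hζ, one_zpow]
  · rw [← zpow_natCast, ← zpow_natCast ζ a, ← zpow_mul, ← zpow_mul, ← zpow_add₀ hne,
      show (b : ℤ) * d + (a : ℤ) * c = 1 by rw [← hcd]; ring, zpow_one]

/-- the action on the `n`-th roots of unity is a fixed power map -/
lemma frob_exp {n : ℕ} (hn : 0 < n) : ∃ k : ℕ, Nat.Coprime k n ∧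
    ∀ s : ℂ ≃+* ℂ, Frob p n s ↔ ∀ ζ : ℂ, ζ ^ n = 1 → s ζ = ζ ^ k := by
  obtain ⟨v, hv⟩ : ∃ v, v = n / p ^ n.factorization p := ⟨_, rfl⟩
  obtain ⟨a, ha⟩ : ∃ a, a = n.factorization p := ⟨_, rfl⟩
  have hnn : n = p ^ a * v := by
    rw [hv, ha]
    exact (Nat.ordProj_mul_ordCompl_eq_self _ _).symm
  have hv0 : 0 < v := by
    rw [hv]
    exact Nat.ordCompl_pos p hn.ne'
  have hpv : ¬ p ∣ v := by
    rw [hv]
    exact Nat.not_dvd_ordCompl hp.out hn.ne'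
  have hpv' : Nat.Coprime p v := (Nat.Prime.coprime_iff_not_dvd hp.out).mpr hpv
  have hcop : Nat.Coprime (p ^ a) v := Nat.Coprime.pow_left a hpv'
  obtain ⟨k, hk1, hk2⟩ := Nat.chineseRemainder hcop 1 p
  have hkc : Nat.Coprime k n := by
    rw [hnn]
    refine Nat.Coprime.mul_right ?_ ?_
    · have := hk1.gcd_eq
      rw [Nat.gcd_one_left] at this
      exact this
    · have := hk2.gcd_eq
      rw [hpv'] at this
      exact this
  refine ⟨k, hkc, fun s => ⟨fun h ζ hζ => ?_, fun h ζ hζ => ⟨?_, ?_⟩⟩⟩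
  · rw [hnn] at hζ
    obtain ⟨x, y, hx, hy, rfl⟩ := root_split hcop (Nat.mul_pos (pow_pos hp.out.pos a) hv0) hζ
    have hxn : x ^ n = 1 := by rw [hnn, pow_mul, hx, one_pow]
    have hyn : y ^ n = 1 := by rw [hnn, mul_comm, pow_mul, hy, one_pow]
    rw [map_mul, (h x hxn).1 ⟨a, hx⟩, (h y hyn).2 ⟨v, hpv, hy⟩, mul_pow,
      pow_eq_of_modEq hk1 hx, pow_one, pow_eq_of_modEq hk2 hy]
  · rintro ⟨j, hj⟩
    rw [h ζ hζ]
    have h1 : orderOf ζ ∣ p ^ a := by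
      have h2 : orderOf ζ ∣ n := orderOf_dvd_of_pow_eq_one hζ
      have h3 : orderOf ζ ∣ p ^ j := orderOf_dvd_of_pow_eq_one hj
      have h4 : Nat.Coprime (orderOf ζ) v :=
        Nat.Coprime.coprime_dvd_left h3 (Nat.Coprime.pow_left j hpv')
      rw [hnn] at h2
      exact h4.dvd_of_dvd_mul_right h2
    rw [pow_eq_of_modEq hk1 (orderOf_dvd_iff_pow_eq_one.mp h1), pow_one]
  · rintro ⟨m, hm, hm'⟩
    rw [h ζ hζ]
    have h1 : orderOf ζ ∣ v := by
      have h2 : orderOf ζ ∣ n := orderOf_dvd_of_pow_eq_one hζ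
      have h3 : orderOf ζ ∣ m := orderOf_dvd_of_pow_eq_one hm'
      have h4 : Nat.Coprime (orderOf ζ) (p ^ a) :=
        Nat.Coprime.coprime_dvd_left h3
          (Nat.Coprime.pow_right a ((Nat.Prime.coprime_iff_not_dvd hp.out).mpr hm).symm)
      rw [hnn] at h2
      exact h4.dvd_of_dvd_mul_left h2
    rw [pow_eq_of_modEq hk2 (orderOf_dvd_iff_pow_eq_one.mp h1)]

lemma exists_frob (p : ℕ) [Fact p.Prime] {n : ℕ} (hn : 0 < n) : ∃ s : ℂ ≃+* ℂ, Frob p n s := by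
  obtain ⟨k, hk, h⟩ := frob_exp (p := p) hn
  obtain ⟨t, ht⟩ := exists_aut_pow hn hk
  exact ⟨t, (h t).mpr ht⟩

lemma frob_agree {n : ℕ} (hn : 0 < n) {s t : ℂ ≃+* ℂ} (hs : Frob p n s) (ht : Frob p n t)
    (ζ : ℂ) (hζ : ζ ^ n = 1) : s ζ = t ζ := by
  obtain ⟨k, -, h⟩ := frob_exp (p := p) hn
  rw [(h s).mp hs ζ hζ, (h t).mp ht ζ hζ]

/-- the group generated by the Frobenius automorphisms of level `N` -/
def FG (p N : ℕ) : Subgroup (ℂ ≃+* ℂ) := Subgroup.closure {s | Frob p N s}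

/-- the automorphisms which fix `z` -/
def Fz (z : ℂ) : Subgroup (ℂ ≃+* ℂ) where
  carrier := {s | s z = z}
  one_mem' := rfl
  mul_mem' := by
    intro s t hs ht
    change s (t z) = z
    rw [show t z = z from ht, show s z = z from hs]
  inv_mem' := by
    intro s hs
    change s.symm z = z
    rw [RingEquiv.symm_apply_eq]
    exact (show s z = z from hs).symm

lemma fg_fix_root {N : ℕ} {s : ℂ ≃+* ℂ} (hs : s ∈ FG p N) {ζ : ℂ} (hζ : ζ ^ N = 1)
    (hj : ∃ j : ℕ, ζ ^ (p ^ j) = 1) : s ζ = ζ := by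
  have h : FG p N ≤ Fz ζ := by
    refine (Subgroup.closure_le _).mpr fun t ht => ?_
    exact (ht ζ hζ).1 hj
  exact h hs

/-- the members of `X` fixed by the Frobenius automorphisms -/
def LF (p : ℕ) {H : Type} (X : Set (H → ℂ)) : Set (H → ℂ) := FxS X {s | Frob p (Nat.card H) s}

/-- the set `X` of functions is stable under the Frobenius automorphisms -/
def Fst (p : ℕ) {H : Type} (X : Set (H → ℂ)) : Prop :=
  ∀ s : ℂ ≃+* ℂ, Frob p (Nat.card H) s → St s X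

section

variable {H : Type} [Group H] [Fintype H]

lemma frob_char {χ : H → ℂ} (hχ : IsIrr χ) {s t : ℂ ≃+* ℂ} (hs : Frob p (Nat.card H) s)
    (ht : Frob p (Nat.card H) t) (g : H) : s (χ g) = t (χ g) :=
  p_gv.1 H χ hχ s t (fun ζ hζ => frob_agree Nat.card_pos hs ht ζ hζ) g

lemma fg_fix_iff {χ : H → ℂ} (hχ : IsIrr χ) {N : ℕ} (hN : 0 < N) (hd : Nat.card H ∣ N) :
    (∀ s ∈ FG p N, ∀ g, s (χ g) = χ g) ↔
      ∀ s : ℂ ≃+* ℂ, Frob p (Nat.card H) s → ∀ g, s (χ g) = χ g := by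
  constructor
  · intro h s hs g
    obtain ⟨t, ht⟩ := exists_frob p hN
    rw [frob_char hχ hs (frob_mono hd ht) g]
    exact h t (Subgroup.subset_closure ht) g
  · intro h s hs g
    have h1 : FG p N ≤ Fz (χ g) :=
      (Subgroup.closure_le _).mpr fun t ht => h t (frob_mono hd ht) g
    exact h1 hs

lemma st_congr {X : Set (H → ℂ)} (hX : ∀ χ ∈ X, IsIrr χ) {s t : ℂ ≃+* ℂ}
    (hst : ∀ χ : H → ℂ, IsIrr χ → ∀ g, s (χ g) = t (χ g)) (h : St t X) : St s X := by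
  have h0 : ∀ χ ∈ X, (fun g => s (χ g)) ∈ X := by
    intro χ hχ
    have h1 := (h χ).mp hχ
    have h2 : (fun g => s (χ g)) = fun g => t (χ g) := funext fun g => hst χ (hX χ hχ) g
    rw [h2]
    exact h1
  intro χ
  refine ⟨h0 χ, fun h1 => ?_⟩
  -- `θ = t⁻¹ s χ` is in `X`, and `s θ = t θ = s χ`
  obtain ⟨θ, hθ, hθ'⟩ : ∃ θ ∈ X, (fun g => t (θ g)) = fun g => s (χ g) := by
    refine ⟨fun g => t.symm (s (χ g)), ?_, funext fun g => t.apply_symm_apply _⟩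
    refine (h _).mpr ?_
    have h2 : (fun g => t (t.symm (s (χ g)))) = fun g => s (χ g) :=
      funext fun g => t.apply_symm_apply _
    rw [h2]
    exact h1
  have h3 : χ = θ := by
    funext g
    refine s.injective ?_
    rw [hst θ (hX θ hθ) g]
    exact (congrFun hθ' g).symm
  rw [h3]
  exact hθ

lemma fg_st_iff {X : Set (H → ℂ)} (hX : ∀ χ ∈ X, IsIrr χ) {N : ℕ} (hN : 0 < N)
    (hd : Nat.card H ∣ N) (h : ∀ s ∈ FG p N, St s X) {s : ℂ ≃+* ℂ}
    (hs : Frob p (Nat.card H) s) : St s X := by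
  obtain ⟨t, ht⟩ := exists_frob p hN
  exact st_congr hX (fun χ hχ g => frob_char hχ hs (frob_mono hd ht) g)
    (h t (Subgroup.subset_closure ht))

lemma lf_eq {X : Set (H → ℂ)} (hX : ∀ χ ∈ X, IsIrr χ) {N : ℕ} (hN : 0 < N)
    (hd : Nat.card H ∣ N) : FxS X (FG p N : Set (ℂ ≃+* ℂ)) = LF p X := by
  ext χ
  exact and_congr_right fun h => fg_fix_iff (hX χ h) hN hd

end

end Pool.Agent.Q17.FN
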