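import Pool.Agent.Q17.FN.Loc
import Pool.Agent.Q17.RR.Asm6

/-!
# Navarro's automorphisms which fix the `p ^ b`-th roots of unity
-/

set_option autoImplicit false

open scoped Classical

noncomputable section

namespace Pool.Agent.Q17.FN

open Pool.Agent.H254R3.IN hiding NN
open Pool.Agent.Q17.WR Pool.Agent.Q17.AM Pool.Agent.Q17.RB
open Pool.Agent.Q17.DC
open Pool.Agent.Q17.RR
open Pool.Agent.Q111.OS
open Pool.Agent.Q92.FT (exists_aut_pow exists_exponent pow_eq_of_modEq)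
open Pool.Agent.Q17.FT (exists_lin fix_mul)
open Pool.Agent.Q38.FT (block_single defect_single St_TB)

/-- `s` fixes the `p ^ b`-th roots of unity and raises the `n`-th roots of unity of order prime to `p`
to a fixed power with exponent a power of `p` -/
def Nav (p b n : ℕ) (s : ℂ ≃+* ℂ) : Prop :=
  (∀ ζ : ℂ, ζ ^ (p ^ b) = 1 → s ζ = ζ) ∧
    ∃ e : ℕ, ∀ ζ : ℂ, ζ ^ n = 1 → (∃ m : ℕ, ¬ p ∣ m ∧ ζ ^ m = 1) → s ζ = ζ ^ (p ^ e)

variable {p b : ℕ} [hp : Fact p.Prime]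

omit hp in
lemma nav_mono {n N : ℕ} (h : n ∣ N) {s : ℂ ≃+* ℂ} (hs : Nav p b N s) : Nav p b n s := by
  obtain ⟨h1, e, h2⟩ := hs
  refine ⟨h1, e, fun ζ hζ => h2 ζ ?_⟩
  obtain ⟨c, rfl⟩ := h
  rw [pow_mul, hζ, one_pow]

/-- a root of unity is a product, the factors are powers -/
lemma root_split' {a c : ℕ} (hab : Nat.Coprime a c) (h0 : 0 < a * c) {ζ : ℂ}
    (hζ : ζ ^ (a * c) = 1) : ∃ x y : ℂ, x ^ a = 1 ∧ y ^ c = 1 ∧ ζ = x * y ∧
      ∀ n : ℕ, ζ ^ n = 1 → y ^ n = 1 := by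
  obtain ⟨k, d, hcd⟩ := Nat.isCoprime_iff_coprime.mpr hab
  have hne : ζ ≠ 0 := by
    rintro rfl
    rw [zero_pow h0.ne'] at hζ
    exact zero_ne_one hζ
  refine ⟨(ζ ^ c) ^ d, (ζ ^ a) ^ k, ?_, ?_, ?_, fun n hn => ?_⟩
  · rw [← zpow_natCast ((ζ ^ c) ^ d) a, ← zpow_mul, mul_comm d (a : ℤ), zpow_mul, zpow_natCast,
      ← pow_mul, mul_comm c a, hζ, one_zpow]
  · rw [← zpow_natCast ((ζ ^ a) ^ k) c, ← zpow_mul, mul_comm k (c : ℤ), zpow_mul, zpow_natCast,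
      ← pow_mul, hζ, one_zpow]
  · rw [← zpow_natCast, ← zpow_natCast ζ a, ← zpow_mul, ← zpow_mul, ← zpow_add₀ hne,
      show (c : ℤ) * d + (a : ℤ) * k = 1 by rw [← hcd]; ring, zpow_one]
  · rw [← zpow_natCast ((ζ ^ a) ^ k) n, ← zpow_mul, mul_comm k (n : ℤ), zpow_mul, zpow_natCast,
      ← pow_mul, mul_comm a n, pow_mul, hn, one_pow, one_zpow]

lemma nav_ext {n N : ℕ} (hN : 0 < N) (h : n ∣ N) {s : ℂ ≃+* ℂ} (hs : Nav p b n s) :
    ∃ t : ℂ ≃+* ℂ, Nav p b N t ∧ ∀ ζ : ℂ, ζ ^ n = 1 → t ζ = s ζ := by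
  obtain ⟨hs1, e, hs2⟩ := hs
  obtain ⟨L, hL⟩ : ∃ L, L = N * p ^ b := ⟨_, rfl⟩
  have hL0 : 0 < L := hL ▸ Nat.mul_pos hN (pow_pos hp.out.pos b)
  obtain ⟨k, hk, hsk⟩ := exists_exponent hL0 s
  obtain ⟨w, hw⟩ : ∃ w, w = L / p ^ L.factorization p := ⟨_, rfl⟩
  obtain ⟨c, hc⟩ : ∃ c, c = L.factorization p := ⟨_, rfl⟩
  have hLL : L = p ^ c * w := by
    rw [hw, hc]
    exact (Nat.ordProj_mul_ordCompl_eq_self _ _).symm
  have hw0 : 0 < w := by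
    rw [hw]
    exact Nat.ordCompl_pos p hL0.ne'
  have hpw : ¬ p ∣ w := by
    rw [hw]
    exact Nat.not_dvd_ordCompl hp.out hL0.ne'
  have hpw' : Nat.Coprime p w := (Nat.Prime.coprime_iff_not_dvd hp.out).mpr hpw
  have hcop : Nat.Coprime (p ^ c) w := Nat.Coprime.pow_left c hpw'
  have hbc : b ≤ c := by
    rw [hc, ← hp.out.pow_dvd_iff_le_factorization hL0.ne', hL]
    exact Dvd.intro_left _ rfl
  obtain ⟨k', hk1, hk2⟩ := Nat.chineseRemainder hcop k (p ^ e)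
  have hkc : Nat.Coprime k' L := by
    rw [hLL] at hk ⊢
    refine Nat.Coprime.mul_right ?_ ?_
    · have h1 := hk1.gcd_eq
      rw [show Nat.gcd k (p ^ c) = 1 from Nat.Coprime.coprime_mul_right_right hk] at h1
      exact h1
    · have h1 := hk2.gcd_eq
      rw [show Nat.gcd (p ^ e) w = 1 from Nat.Coprime.pow_left e hpw'] at h1
      exact h1
  obtain ⟨t, ht⟩ := exists_aut_pow hL0 hkc
  have hpp : ∀ x : ℂ, x ^ (p ^ c) = 1 → t x = s x := by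
    intro x hx
    have hxL : x ^ L = 1 := by rw [hLL, pow_mul, hx, one_pow]
    rw [ht x hxL, hsk x hxL, pow_eq_of_modEq hk1 hx]
  have hpp' : ∀ y : ℂ, y ^ w = 1 → t y = y ^ (p ^ e) := by
    intro y hy
    have hyL : y ^ L = 1 := by rw [hLL, mul_comm, pow_mul, hy, one_pow]
    rw [ht y hyL, pow_eq_of_modEq hk2 hy]
  refine ⟨t, ⟨fun ζ hζ => ?_, e, fun ζ hζ => ?_⟩, fun ζ hζ => ?_⟩
  · rw [hpp ζ ?_, hs1 ζ hζ]
    obtain ⟨d, hd⟩ := pow_dvd_pow p hbc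
    rw [hd, pow_mul, hζ, one_pow]
  · rintro ⟨m, hm, hm'⟩
    refine hpp' ζ ?_
    have h2 : orderOf ζ ∣ L := by
      rw [hL]
      exact (orderOf_dvd_of_pow_eq_one hζ).trans (Dvd.intro _ rfl)
    have h3 : orderOf ζ ∣ m := orderOf_dvd_of_pow_eq_one hm'
    have h4 : Nat.Coprime (orderOf ζ) (p ^ c) :=
      Nat.Coprime.coprime_dvd_left h3
        (Nat.Coprime.pow_right c ((Nat.Prime.coprime_iff_not_dvd hp.out).mpr hm).symm)
    rw [hLL] at h2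
    exact orderOf_dvd_iff_pow_eq_one.mp (h4.dvd_of_dvd_mul_left h2)
  · have hζL : ζ ^ (p ^ c * w) = 1 := by
      obtain ⟨d, hd⟩ := h
      rw [← hLL, hL, hd, mul_assoc, pow_mul, hζ, one_pow]
    obtain ⟨x, y, hx, hy, hxy, hyn⟩ := root_split' hcop
      (Nat.mul_pos (pow_pos hp.out.pos c) hw0) hζL
    rw [hxy, map_mul, map_mul, hpp x hx, hpp' y hy, hs2 y (hyn n hζ) ⟨w, hpw, hy⟩]

/-- the group generated by the automorphisms of level `N` -/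
def NG (p b N : ℕ) : Subgroup (ℂ ≃+* ℂ) := Subgroup.closure {s | Nav p b N s}

omit hp in
lemma ng_fix_root {N : ℕ} {s : ℂ ≃+* ℂ} (hs : s ∈ NG p b N) {ζ : ℂ} (hζ : ζ ^ (p ^ b) = 1) :
    s ζ = ζ := by
  have h : NG p b N ≤ Fz ζ := (Subgroup.closure_le _).mpr fun t ht => ht.1 ζ hζ
  exact h hs

lemma ng_fix_iff {H : Type} [Group H] [Fintype H] {χ : H → ℂ} (hχ : IsIrr χ) {n N : ℕ}
    (hN : 0 < N) (hHn : Nat.card H ∣ n) (hd : n ∣ N) :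
    (∀ s ∈ NG p b N, ∀ g, s (χ g) = χ g) ↔ ∀ s : ℂ ≃+* ℂ, Nav p b n s → ∀ g, s (χ g) = χ g := by
  constructor
  · intro h s hs g
    obtain ⟨t, ht, hts⟩ := nav_ext hN hd hs
    rw [p_gv.1 H χ hχ s t (fun ζ hζ => (hts ζ (by
      obtain ⟨c, rfl⟩ := hHn
      rw [pow_mul, hζ, one_pow])).symm) g]
    exact h t (Subgroup.subset_closure ht) g
  · intro h s hs g
    have h1 : NG p b N ≤ Fz (χ g) :=
      (Subgroup.closure_le _).mpr fun t ht => h t (nav_mono hd ht) g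
    exact h1 hs

lemma ng_st {H : Type} [Group H] [Fintype H] {X : Set (H → ℂ)} (hX : ∀ χ ∈ X, IsIrr χ) {N : ℕ}
    (hN : 0 < N) (hd : Nat.card H ∣ N) (h : ∀ s ∈ NG p b N, St s X) {s : ℂ ≃+* ℂ}
    (hs : Nav p b (Nat.card H) s) : St s X := by
  obtain ⟨t, ht, hts⟩ := nav_ext hN hd hs
  exact st_congr hX (fun χ hχ g => p_gv.1 H χ hχ s t (fun ζ hζ => (hts ζ hζ).symm) g)
    (h t (Subgroup.subset_closure ht))

lemma sk_level {Γ : Type} [Group Γ] [Fintype Γ] {O : ValuationSubring ℂ} {B : Set (Γ → ℂ)} {n N : ℕ}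
    (hN : 0 < N) (hΓ : Nat.card Γ ∣ n) (hd : n ∣ N) :
    SK p O B (NG p b N : Set (ℂ ≃+* ℂ)) = SK p O B {s | Nav p b n s} := by
  refine sk_congr fun H ψ hψ => ?_
  have : Fintype H := Fintype.ofFinite _
  exact ng_fix_iff hψ hN ((Subgroup.card_subgroup_dvd_card H).trans hΓ) hd

end Pool.Agent.Q17.FN
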