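import Pool.Agent.Q17.FN.Nvm
import Pool.Agent.Q17.RR.All2

/-!
# The reduction in the `F`-form
-/

set_option autoImplicit false

open scoped Classical

noncomputable section

namespace Pool.Agent.Q17.FN

open Pool.Agent.H254R3.IN hiding NN
open Pool.Agent.Y63.KR Pool.Agent.Q17.WR Pool.Agent.Q17.DC Pool.Agent.Q17.AM Pool.Agent.Q17.OS
open Pool.Agent.Q17.DM Pool.Agent.Q17.RB Pool.Agent.Q111.OS Pool.Agent.Q66.RB
open Pool.Agent.Q17.RR
open Pool.Agent.Y63.NV (centralValue IsClassFun numDzBlock numIrrInd KRB BAWC)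
open Pool.Agent.Q18.K (altQ numQ altQ_congr alt_bot numQ_true)

/-- the reduction to characters fixed by Navarro's automorphisms -/
theorem main_V {p r b : ℕ}
    [hp : Fact p.Prime] [hr : Fact r.Prime] (hpr : p ≠ r) (hb : p ≠ 2 ∨ 2 ≤ b)
    {O : ValuationSubring ℂ} (hO : (p : ℂ) ∈ O.nonunits)
    {C : ∀ (G : Type) [Group G], Subgroup G → Prop} (hC : ClR p C)
    (h : ∀ (G : Type) [Group G] [Fintype G] (B : Set (G → ℂ)) (D : Subgroup G), IsBlock O B →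
      IsDefectGroup p O B D → D ≠ ⊥ → C G D → Gst B →
      (r : ℤ) ∣ SK p O B {s | Nav p b (Nat.card G) s})
    {G : Type} [Group G] [Fintype G] {B : Set (G → ℂ)} {D : Subgroup G} (hB : IsBlock O B)
    (hD : IsDefectGroup p O B D) (hne : D ≠ ⊥) (hc : C G D) : SK p O B ∅ = 0 := by
  by_contra h0
  obtain ⟨G₁, _, _, B₁, D₁, h1, h2, h3, h4, h5⟩ := descent' hpr hO hC hB hD hne hc h0
  obtain ⟨G₂, _, _, B₂, D₂, n, e1, e2, e3, e4, e5, e6, e7⟩ := stableN r_wpk r_stf r_gck r_twk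
    r_ras hb hO hC h1 h2 h3 h4
  have h6 := h G₂ B₂ D₂ e1 e2 e3 e4 e5
  rw [e7] at h6
  exact h5 (Int.Prime.dvd_pow' hr.out h6)

variable {F : Type} [Field F] {p : ℕ} [hp : Fact p.Prime] [IsAlgClosed F] [CharP F p]

/-- characters of Galois-stable blocks fixed by Navarro's automorphisms -/
theorem krb_V {m b : ℕ} (hm : ∀ k, m ≠ p ^ k) (hb : p ≠ 2 ∨ 2 ≤ b)
    (red : integralClosure ℤ ℂ →+* F) {X : ∀ (G : Type) [Group G], Prop} (hX : ClX p X)
    (h : ∀ (Γ : Type) [Group Γ] [Finite Γ], X Γ → NN1 p Γ → ∀ β : (Γ → F) → F,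
      Pool.Agent.Y63.NV.IsBlock β → FGst red β → numDzBlock p red β = 0 →
      (m : ℤ) ∣ alternatingSum p Γ (fun H => (numQ red β (fun S =>
        ∀ s ∈ {s | Nav p b (Nat.card Γ) s}, ∀ a ∈ S, s a = a) H : ℤ)))
    {Γ : Type} [Group Γ] [Finite Γ] (hXΓ : X Γ) (h1 : NN1 p Γ) : KRB p red Γ := by
  obtain ⟨r, hr, hrm, hpr⟩ := Pool.Agent.Q17.AM.exists_prime hm
  have hrF : Fact r.Prime := ⟨hr⟩
  refine krb_of_zero r_bro r_brc r_brs r_dzk red fun O hO hM _ B D hB hD hne => ?_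
  refine main_V (r := r) (b := b) hpr hb hO (clR_cp hX) ?_ hB hD hne ⟨hXΓ, h1, hne⟩
  rintro G _ _ B D hB hD hne ⟨h2, h3, -⟩ hg
  obtain ⟨β, hβ, hBr⟩ := (r_brc p F red O hO hM G).1 B hB
  have hP := p_pos G p O hO B hB D hD hne
  have h4 := r_brs p F red O hO hM G B β hB hβ hBr
  have h5 : numDzBlock p red β = 0 := by
    have h6 := h4.2
    rw [if_pos hP] at h6
    exact_mod_cast h6
  have h6 := h G h2 h3 β hβ (fgst_of hBr hg) h5
  rw [alt_bot, h4.1] at h6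
  exact (Int.natCast_dvd_natCast.mpr hrm).trans h6

end Pool.Agent.Q17.FN
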