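import Pool.Agent.Q17.FN.Lad

/-!
# The reduction to characters of Galois-stable blocks fixed by Navarro's automorphisms
-/

set_option autoImplicit false

open scoped Classical

noncomputable section

namespace Pool.Agent.Q17.FN

open Pool.Agent.H254R3.IN hiding NN
open Pool.Agent.Y63.KR Pool.Agent.Q17.WR Pool.Agent.Q17.DC Pool.Agent.Q17.AM Pool.Agent.Q17.OS
open Pool.Agent.Q17.DM Pool.Agent.Q17.RB Pool.Agent.Q111.OS Pool.Agent.Q66.RB
open Pool.Agent.Q17.RR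
open Pool.Agent.Q17.FT (exists_lin fix_mul)
open Pool.Agent.Q38.FT (block_single defect_single St_TB)

theorem twistN (hT : S_TWK) (hR : S_RAS) {p b : ℕ} [hp : Fact p.Prime] (hb : p ≠ 2 ∨ 2 ≤ b)
    {O : ValuationSubring ℂ} (hO : (p : ℂ) ∈ O.nonunits) {G : Type} [Group G] [Fintype G]
    {B : Set (G → ℂ)} {D : Subgroup G} (hB : IsBlock O B) (hD : IsDefectGroup p O B D)
    (hne : D ≠ ⊥) : ∃ (v : ℕ) (_ : NeZero v) (B₁ : Set (G × Multiplicative (ZMod v) → ℂ)),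
      ¬ p ∣ v ∧ IsBlock O B₁ ∧
      IsDefectGroup p O B₁ (D.prod (⊥ : Subgroup (Multiplicative (ZMod v)))) ∧
      D.prod (⊥ : Subgroup (Multiplicative (ZMod v))) ≠ ⊥ ∧
      ∀ N : ℕ, 0 < N → Nat.card (G × Multiplicative (ZMod v)) ∣ N →
        SK p O B₁ {s | s ∈ NG p b N ∧ St s B₁} = SK p O B ∅ := by
  have hn : 0 < Nat.card G := Nat.card_pos
  obtain ⟨v, hv⟩ : ∃ v, v = Nat.card G / p ^ (Nat.card G).factorization p := ⟨_, rfl⟩
  obtain ⟨a, ha⟩ : ∃ a, a = (Nat.card G).factorization p := ⟨_, rfl⟩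
  have hcard : Nat.card G = v * p ^ a := by
    rw [hv, ha, mul_comm]
    exact (Nat.ordProj_mul_ordCompl_eq_self _ _).symm
  have hv0 : 0 < v := Nat.pos_of_ne_zero fun h => by rw [h, zero_mul] at hcard; omega
  have hpv : ¬ p ∣ v := by
    rw [hv]
    exact Nat.not_dvd_ordCompl hp.out hn.ne'
  have hcop : ∀ j : ℕ, Nat.Coprime v (p ^ j) := fun j =>
    Nat.Coprime.pow_right j ((Nat.Prime.coprime_iff_not_dvd hp.out).mpr hpv).symm
  have hN : NeZero v := ⟨hv0.ne'⟩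
  have hVc : Nat.card (Multiplicative (ZMod v)) = v := by
    rw [Nat.card_congr (Multiplicative.toAdd : Multiplicative (ZMod v) ≃ ZMod v), Nat.card_zmod]
  have hpV : ¬ p ∣ Nat.card (Multiplicative (ZMod v)) := by rw [hVc]; exact hpv
  obtain ⟨ψ, hψ⟩ := exists_lin v hv0
  have hψv : ∀ x, ((ψ x : ℂˣ) : ℂ) ^ v = 1 := by
    intro x
    have h1 : x ^ v = 1 := by
      have h2 := pow_card_eq_one' (x := x)
      rwa [hVc] at h2
    rw [← Units.val_pow_eq_pow_val, ← map_pow, h1, map_one, Units.val_one]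
  have hψi := Pool.Agent.Q18.CF.lin_irr ψ
  have hψB : IsBlock O {fun x => ((ψ x : ℂˣ) : ℂ)} := block_single hO hpV hψi
  have hψD := defect_single hO hpV hψi
  have hst := fun s : ℂ ≃+* ℂ => St_TB hψi hB.irr hB.nonempty s
  refine ⟨v, hN, TB B {fun x => ((ψ x : ℂˣ) : ℂ)}, hpv, block_TB hB hψB, defect_TB hB hψB hD hψD,
    ?_, fun N hN0 hdN => ?_⟩
  · intro h
    refine hne ((Subgroup.eq_bot_iff_forall D).mpr fun g hg => ?_)
    have h1 : ((g, 1) : G × Multiplicative (ZMod v)) ∈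
        D.prod (⊥ : Subgroup (Multiplicative (ZMod v))) :=
      Subgroup.mem_prod.mpr ⟨hg, Subgroup.one_mem _⟩
    rw [h, Subgroup.mem_bot] at h1
    exact congrArg Prod.fst h1
  · have hGN : Nat.card G ∣ N := by
      refine dvd_trans ?_ hdN
      rw [Nat.card_prod]
      exact Dvd.intro _ rfl
    obtain ⟨w, hw⟩ : ∃ w, w = N / p ^ N.factorization p := ⟨_, rfl⟩
    have hw0 : 0 < w := by
      rw [hw]
      exact Nat.ordCompl_pos p hN0.ne'
    have hpw : ¬ p ∣ w := by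
      rw [hw]
      exact Nat.not_dvd_ordCompl hp.out hN0.ne'
    have hNw : N = p ^ N.factorization p * w := by
      rw [hw]
      exact (Nat.ordProj_mul_ordCompl_eq_self _ _).symm
    have hpw' : Nat.Coprime p w := (Nat.Prime.coprime_iff_not_dvd hp.out).mpr hpw
    have hvw : v ∣ w := by
      have h1 : v ∣ p ^ N.factorization p * w :=
        hNw ▸ (Dvd.intro _ hcard.symm).trans hGN
      exact (hcop _).dvd_of_dvd_mul_left h1
    have hK : ∀ s ∈ ({s | s ∈ NG p b N ∧ St s (TB B {fun x => ((ψ x : ℂˣ) : ℂ)})} :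
        Set (ℂ ≃+* ℂ)), ∀ x, s ((ψ x : ℂˣ) : ℂ) = ((ψ x : ℂˣ) : ℂ) := by
      rintro s ⟨-, hs2⟩
      exact ((hst s).mp hs2).2
    rw [hT.1 p O hO G (Multiplicative (ZMod v)) B _ hB hψB, (hT.2 p O hO _ hpV _ hψi _ hK).2,
      mul_one, ← hR p b hb O hO G B hB]
    refine sk_congr fun H θ hθ => ⟨fun h t ht g => ?_, fun h s hs g => ?_⟩
    · -- an automorphism with the same action
      obtain ⟨s, hs1, hs2⟩ := Pool.Agent.Q92.FT.t_CRT (Nat.card G) (w * p ^ b) hn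
        (Nat.mul_pos hw0 (pow_pos hp.out.pos b)) t (fun ζ hζ => by
          have hζG : ζ ^ Nat.card G = 1 := by
            obtain ⟨c, hc⟩ := Nat.gcd_dvd_left (Nat.card G) (w * p ^ b)
            rw [hc, pow_mul, hζ, one_pow]
          refine ht ζ hζG ⟨w, hpw, ?_⟩
          obtain ⟨c', hc'⟩ := Nat.gcd_dvd_right (Nat.card G) (w * p ^ b)
          rw [hc', pow_mul, hζ, one_pow])
      have hsw : ∀ ζ : ℂ, ζ ^ w = 1 → s ζ = ζ := fun ζ hζ => hs2 ζ (by rw [pow_mul, hζ, one_pow])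
      have hsv : ∀ ζ : ℂ, ζ ^ v = 1 → s ζ = ζ := fun ζ hζ => hsw ζ (by
        obtain ⟨c, hc⟩ := hvw
        rw [hc, pow_mul, hζ, one_pow])
      have hsK : s ∈ ({s | s ∈ NG p b N ∧ St s (TB B {fun x => ((ψ x : ℂˣ) : ℂ)})} :
          Set (ℂ ≃+* ℂ)) := by
        refine ⟨Subgroup.subset_closure ⟨fun ζ hζ =>
          hs2 ζ (by rw [mul_comm, pow_mul, hζ, one_pow]), 0, fun ζ hζ => ?_⟩, (hst s).mpr
          ⟨?_, fun x => hsv _ (hψv x)⟩⟩
        · rintro ⟨m, hm, hm'⟩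
          rw [pow_zero, pow_one]
          refine hsw ζ ?_
          have h2 : orderOf ζ ∣ N := orderOf_dvd_of_pow_eq_one hζ
          have h3 : orderOf ζ ∣ m := orderOf_dvd_of_pow_eq_one hm'
          have h4 : Nat.Coprime (orderOf ζ) (p ^ N.factorization p) :=
            Nat.Coprime.coprime_dvd_left h3
              (Nat.Coprime.pow_right _ ((Nat.Prime.coprime_iff_not_dvd hp.out).mpr hm).symm)
          rw [hNw] at h2
          exact orderOf_dvd_iff_pow_eq_one.mp (h4.dvd_of_dvd_mul_left h2)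
        · exact Pool.Agent.Q150.FT.t_GCP G p O hO B hB s
            (fun ζ hζ => hsv ζ (by rw [hv]; exact hζ))
      have h1 := h s hsK g
      have h2 := p_gv.1 H θ hθ t s (fun ζ hζ => (hs1 ζ (by
        obtain ⟨c, hc⟩ := Subgroup.card_subgroup_dvd_card H
        rw [hc, pow_mul, hζ, one_pow])).symm) g
      rw [h2, h1]
    · refine h s (fun ζ hζ => ?_) g
      rintro ⟨k, hk, hζk⟩
      have hsψ := hK s hs
      have h1 : orderOf ζ ∣ v * p ^ a := by
        rw [← hcard]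
        exact orderOf_dvd_of_pow_eq_one hζ
      have h2 : orderOf ζ ∣ k * p ^ b := orderOf_dvd_of_pow_eq_one hζk
      have h3 : orderOf ζ ∣ v * p ^ b := by
        have h4 : orderOf ζ ∣ Nat.gcd (v * p ^ a) (v * (k * p ^ b)) :=
          Nat.dvd_gcd h1 (h2.mul_left v)
        rw [Nat.gcd_mul_left, Nat.Coprime.gcd_mul_left_cancel_right _
          (Nat.Coprime.pow_right a ((Nat.Prime.coprime_iff_not_dvd hp.out).mpr hk).symm)] at h4
        exact h4.trans (mul_dvd_mul_left v (Nat.gcd_dvd_right _ _))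
      refine fix_mul (hcop b) ?_ (fun ζ hζ => ng_fix_root hs.1 hζ)
        (Nat.mul_pos hv0 (pow_pos hp.out.pos b)) (orderOf_dvd_iff_pow_eq_one.mp h3)
      intro ζ hζ
      obtain ⟨x, hx⟩ := hψ ζ hζ
      rw [← hx]
      exact hsψ x

/-- for every block there is a Galois-stable block such that a power of the alternating sum of the
numbers of all characters for the first is the one of the numbers of the characters fixed by Navarro's
automorphisms for the second -/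
theorem stableN (hW : S_WPK) (hS : S_STF) (hG : S_GCK) (hT : S_TWK) (hR : S_RAS) {p b : ℕ}
    [hp : Fact p.Prime] (hb : p ≠ 2 ∨ 2 ≤ b) {O : ValuationSubring ℂ} (hO : (p : ℂ) ∈ O.nonunits)
    {C : ∀ (G : Type) [Group G], Subgroup G → Prop} (hC : ClR p C)
    {G : Type} [Group G] [Fintype G] {B : Set (G → ℂ)} {D : Subgroup G} (hB : IsBlock O B)
    (hD : IsDefectGroup p O B D) (hne : D ≠ ⊥) (hc : C G D) :
    ∃ (G' : Type) (_ : Group G') (_ : Fintype G') (B' : Set (G' → ℂ)) (D' : Subgroup G') (n : ℕ),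
      IsBlock O B' ∧ IsDefectGroup p O B' D' ∧ D' ≠ ⊥ ∧ C G' D' ∧ Gst B' ∧ 1 ≤ n ∧
      SK p O B' {s | Nav p b (Nat.card G') s} = SK p O B ∅ ^ n := by
  obtain ⟨v, hv, B₁, hpv, h1, h2, h3, h4⟩ := twistN hT hR hb hO hB hD hne
  have hg0 : 0 < Nat.card (G × Multiplicative (ZMod v)) := Nat.card_pos
  obtain ⟨N, hN0, hgN, hlad⟩ := ladderB hW hS hO hC (Stb B₁).index
    (Nat.card (G × Multiplicative (ZMod v))) hg0
  have hfi := stb_fin hO h1
  have hnor := stb_normal (B := B₁) h1.irr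
  have hle : (Stb B₁).relIndex (NG p b N) ≤ (Stb B₁).index :=
    Nat.le_of_dvd (Nat.pos_of_ne_zero hfi.index_ne_zero)
      (Subgroup.relIndex_dvd_index_of_normal _ _)
  obtain ⟨G₃, i1, i2, B₃, D₃, f0, f1, f2, f3, f4, f5, f6⟩ := hlad (NG p b N)
    (G × Multiplicative (ZMod v)) B₁ _ rfl h1 h2 h3 (hC.prod G D v hpv hc) hle
  rw [h4 N hN0 hgN] at f6
  obtain ⟨G₄, i3, i4, B₄, D₄, n, e0, e1, e2, e3, e4, e5, e6, e7⟩ := ladderG hW hS hG hO hC _ G₃ B₃
    D₃ f1 f2 f3 f4 le_rfl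
  refine ⟨G₄, i3, i4, B₄, D₄, n, e1, e2, e3, e4, e5, e6, ?_⟩
  have hst : ∀ s : ℂ ≃+* ℂ, Nav p b (Nat.card G₃) s → St s B₃ := fun s hs =>
    ng_st f1.irr hN0 f0 (fun t ht => mem_stb'.mp (f5 ht)) hs
  have h5 := e7 {s | Nav p b (Nat.card G₄) s} fun s hs => hst s (nav_mono e0 hs)
  have h6 : 0 < Nat.card G₄ := Nat.card_pos
  have g1 : SK p O B₃ (NG p b N : Set (ℂ ≃+* ℂ)) = SK p O B₃ {s | Nav p b (Nat.card G₃) s} :=
    sk_level hN0 dvd_rfl f0
  have g2 : SK p O B₃ (NG p b (Nat.card G₄) : Set (ℂ ≃+* ℂ)) =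
      SK p O B₃ {s | Nav p b (Nat.card G₃) s} := sk_level h6 dvd_rfl e0
  have g3 : SK p O B₃ (NG p b (Nat.card G₄) : Set (ℂ ≃+* ℂ)) =
      SK p O B₃ {s | Nav p b (Nat.card G₄) s} := sk_level h6 e0 dvd_rfl
  rw [h5, ← f6, g1, ← g2, g3]

end Pool.Agent.Q17.FN
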